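import Pool.Agent.H629.TA.Stm

/-! # Exact one step formulas -/

set_option autoImplicit false

open Finset

namespace Pool.Agent.H549.TA.EX

open Pool.Agent.H629.TA

theorem draw_sum {ι : Type} (m : ℕ) (s : Finset ℕ) (p : ℕ → ℝ) (t : Finset ι)
    (f : ι → (Fin m → ℕ) → ℝ) :
    draw m s p (fun j => ∑ a ∈ t, f a j) = ∑ a ∈ t, draw m s p (f a) := by
  unfold draw
  simp_rw [Finset.mul_sum]
  rw [Finset.sum_comm]

theorem t_EX : S_DR → S_CT → S_EX := by
  intro hD hC m s x L hL hx
  obtain ⟨p, hpd⟩ : ∃ p : ℕ → ℝ, p = fun a => x a / L := ⟨_, rfl⟩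
  have hpa : ∀ a, p a = x a / L := fun a => by rw [hpd]
  have hp : ∑ a ∈ s, p a = 1 := by
    simp_rw [hpa]
    rw [← Finset.sum_div, hx, div_self hL.ne']
  rw [← hpd]
  obtain ⟨d1, d2, d3, -, -, -⟩ := hD m s p
  obtain ⟨c1, c2, c3, -⟩ := hC m s p hp
  have hL0 : L ≠ 0 := hL.ne'
  refine ⟨?_, ?_, fun K hK => ⟨?_, ?_⟩⟩
  · rw [draw_sum]
    have h1 : ∀ a ∈ s, draw m s p (fun j => (x a + (cnt j a : ℝ)) ^ 2) =
        (1 + 2 * m / L + m * (m - 1) / L ^ 2) * x a ^ 2 + m * p a := by
      intro a ha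
      have e : (fun j : Fin m → ℕ => (x a + (cnt j a : ℝ)) ^ 2) =
          fun j => (x a ^ 2 + (2 * x a) * (cnt j a : ℝ)) + (cnt j a : ℝ) ^ 2 := by
        funext j
        ring
      rw [e, d2 (fun j => x a ^ 2 + (2 * x a) * (cnt j a : ℝ)) (fun j => (cnt j a : ℝ) ^ 2),
        d2 (fun _ => x a ^ 2) (fun j => (2 * x a) * (cnt j a : ℝ)), d1 _ hp, d3, c1 a ha, c3 a ha,
        hpa]
      field_simp
      ring
    rw [Finset.sum_congr rfl h1, Finset.sum_add_distrib, ← Finset.mul_sum, ← Finset.mul_sum, hp,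
      mul_one]
  · rw [draw_sum]
    have h1 : ∀ a ∈ s, draw m s p (fun j => (cnt j a : ℝ) * (x a + (cnt j a : ℝ))) =
        (m / L + m * (m - 1) / L ^ 2) * x a ^ 2 + m * p a := by
      intro a ha
      have e : (fun j : Fin m → ℕ => (cnt j a : ℝ) * (x a + (cnt j a : ℝ))) =
          fun j => x a * (cnt j a : ℝ) + (cnt j a : ℝ) ^ 2 := by
        funext j
        ring
      rw [e, d2 (fun j => x a * (cnt j a : ℝ)) (fun j => (cnt j a : ℝ) ^ 2), d3, c1 a ha, c3 a ha,
        hpa]
      field_simp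
      ring
    rw [Finset.sum_congr rfl h1, Finset.sum_add_distrib, ← Finset.mul_sum, ← Finset.mul_sum, hp,
      mul_one]
  · rw [draw_sum, Finset.mul_sum]
    refine Finset.sum_congr rfl fun a ha => ?_
    rw [draw_sum, Finset.mul_sum]
    refine Finset.sum_congr rfl fun b hb => ?_
    by_cases hab : a = b
    · subst hab
      have e : (fun j : Fin m → ℕ => K a a * ((x a + (cnt j a : ℝ)) * (x a + (cnt j a : ℝ)))) =
          fun _ => 0 := by
        funext j
        rw [hK, zero_mul]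
      rw [e, d1 _ hp, hK]
      ring
    · have e : (fun j : Fin m → ℕ => K a b * ((x a + (cnt j a : ℝ)) * (x b + (cnt j b : ℝ)))) =
          fun j => K a b * (((x a * x b + x a * (cnt j b : ℝ)) + x b * (cnt j a : ℝ)) +
            (cnt j a : ℝ) * (cnt j b : ℝ)) := by
        funext j
        ring
      rw [e, d3, d2 (fun j => (x a * x b + x a * (cnt j b : ℝ)) + x b * (cnt j a : ℝ))
          (fun j => (cnt j a : ℝ) * (cnt j b : ℝ)),
        d2 (fun j => x a * x b + x a * (cnt j b : ℝ)) (fun j => x b * (cnt j a : ℝ)),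
        d2 (fun _ => x a * x b) (fun j => x a * (cnt j b : ℝ)), d1 _ hp, d3, d3, c1 a ha, c1 b hb,
        c2 a ha b hb hab, hpa, hpa]
      field_simp
      ring
  · rw [draw_sum, Finset.mul_sum]
    refine Finset.sum_congr rfl fun a ha => ?_
    rw [draw_sum, Finset.mul_sum]
    refine Finset.sum_congr rfl fun b hb => ?_
    by_cases hab : a = b
    · subst hab
      have e : (fun j : Fin m → ℕ => K a a * ((cnt j a : ℝ) * (cnt j a : ℝ))) =
          fun _ => 0 := by
        funext j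
        rw [hK, zero_mul]
      rw [e, d1 _ hp, hK]
      ring
    · rw [d3, c2 a ha b hb hab, hpa, hpa]
      field_simp

end Pool.Agent.H549.TA.EX
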